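import Pool.Agent.Helper84.OV.Zero

/-!
Project OV, packet GEL: the height of a factor of a polynomial in two variables.
-/

set_option autoImplicit false

open Finset

namespace Pool.Agent.Helper91.OV.GEL

open Pool.Agent.Helper84.OV
open scoped Polynomial

/-- many integers in `[0, 2n]` are not roots -/
theorem nonroots (F : ℤ[X]) (n : ℕ) (hF : F ≠ 0) (hn : F.natDegree ≤ n) :
    n + 1 ≤ ((range (2 * n + 1)).filter fun x : ℕ => F.eval (x : ℤ) ≠ 0).card := by
  have h1 : ((range (2 * n + 1)).filter fun x : ℕ => F.eval (x : ℤ) = 0).card ≤ n := by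
    have h2 : (((range (2 * n + 1)).filter fun x : ℕ => F.eval (x : ℤ) = 0).image
        (fun x : ℕ => (x : ℤ))) ⊆ F.roots.toFinset := by
      intro z hz
      rw [mem_image] at hz
      obtain ⟨x, hx, rfl⟩ := hz
      rw [mem_filter] at hx
      rw [Multiset.mem_toFinset, Polynomial.mem_roots hF]
      exact hx.2
    have h3 := card_le_card h2
    rw [card_image_of_injective _ Nat.cast_injective] at h3
    exact h3.trans ((Multiset.toFinset_card_le _).trans ((Polynomial.card_roots' F).trans hn))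
  have h4 := Finset.card_filter_add_card_filter_not (s := range (2 * n + 1))
    (fun x : ℕ => F.eval (x : ℤ) = 0)
  rw [card_range] at h4
  simp only [ne_eq]
  omega

theorem eval_le (F : ℤ[X]) (n M x : ℕ) (hn : F.natDegree ≤ n) (hx : x ≤ M) (hM : 1 ≤ M) :
    (F.eval (x : ℤ)).natAbs ≤ n1 F * M ^ n := by
  rw [Polynomial.eval_eq_sum, Polynomial.sum_def]
  refine (Int.natAbs_sum_le _ _).trans ?_
  unfold n1
  rw [sum_mul]
  refine sum_le_sum fun i hi => ?_
  rw [Int.natAbs_mul, Int.natAbs_pow, Int.natAbs_natCast]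
  refine Nat.mul_le_mul_left _ ?_
  have hi2 : i ≤ n := (Polynomial.le_natDegree_of_mem_supp i hi).trans hn
  exact (Nat.pow_le_pow_left hx i).trans (Nat.pow_le_pow_right hM hi2)

theorem coeff_le (F : ℤ[X]) (j : ℕ) : (F.coeff j).natAbs ≤ n1 F := by
  by_cases h : j ∈ F.support
  · exact single_le_sum (f := fun i => (F.coeff i).natAbs) (fun _ _ => Nat.zero_le _) h
  · rw [Polynomial.notMem_support_iff] at h
    rw [h]
    exact Nat.zero_le _

/-- the polynomial in `Y` at `X = x` -/
noncomputable def at1 (x : ℤ) (S : R2) : ℤ[X] := S.map (Polynomial.evalRingHom x)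

theorem ev_at1 (x y : ℤ) (S : R2) : ev x y S = (at1 x S).eval y :=
  (Polynomial.map_evalRingHom_eval x y S).symm

theorem coeff_at1 (x : ℤ) (S : R2) (j : ℕ) : (at1 x S).coeff j = (S.coeff j).eval x := by
  unfold at1
  rw [Polynomial.coeff_map]
  rfl

theorem natDegree_at1 (x : ℤ) (S : R2) : (at1 x S).natDegree ≤ S.natDegree :=
  Polynomial.natDegree_map_le

theorem n1_at1 (S : R2) (n M x : ℕ) (hn : DX n S) (hx : x ≤ M) (hM : 1 ≤ M) :
    n1 (at1 x S) ≤ nrm S * M ^ n := by
  have h1 : (at1 x S).support ⊆ S.support := by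
    intro j hj
    rw [Polynomial.mem_support_iff, coeff_at1] at hj
    rw [Polynomial.mem_support_iff]
    intro h0
    rw [h0, Polynomial.eval_zero] at hj
    exact hj rfl
  rw [n1_eq _ _ h1]
  unfold nrm
  rw [sum_mul]
  refine sum_le_sum fun j _ => ?_
  rw [coeff_at1]
  exact eval_le _ n M x (hn j) hx hM

theorem ev_le (S : R2) (n M x y : ℕ) (hn : DX n S) (hd : S.natDegree ≤ n) (hx : x ≤ M) (hy : y ≤ M)
    (hM : 1 ≤ M) : (ev x y S).natAbs ≤ nrm S * M ^ n * M ^ n := by
  rw [ev_at1]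
  refine (eval_le _ n M y ((natDegree_at1 _ _).trans hd) hy hM).trans ?_
  exact Nat.mul_le_mul_right _ (n1_at1 S n M x hn hx hM)

theorem t : S_GEL := by
  intro hint hdxd S T n hn hT hST hdeg
  by_cases hS : S = 0
  · rw [hS, nrm_zero]
    exact Nat.zero_le _
  have hM : 1 ≤ 2 * n := by omega
  have hSx : DX n S := hdxd S T n hT hST
  have hnd : S.natDegree + T.natDegree ≤ n := by
    rw [← Polynomial.natDegree_mul hS hT]
    exact hdeg
  have hSd : S.natDegree ≤ n := by omega
  have hTd : T.natDegree ≤ n := by omega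
  have hTx : DX n T := hdxd T S n hS (by rw [mul_comm]; exact hST)
  obtain ⟨j, hj⟩ := Polynomial.nonempty_support_iff.2 hT
  rw [Polynomial.mem_support_iff] at hj
  have hZ := nonroots (T.coeff j) n hj (hTx j)
  have key : ∀ x ∈ (range (2 * n + 1)).filter fun x : ℕ => (T.coeff j).eval (x : ℤ) ≠ 0,
      n1 (at1 x S) ≤ (n + 1) * (2 * n + 1) ^ n * (nrm (S * T) * (2 * n) ^ n * (2 * n) ^ n) := by
    intro x hx
    rw [mem_filter, mem_range] at hx
    have hTx0 : at1 x T ≠ 0 := by
      intro hc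
      apply hx.2
      rw [← coeff_at1, hc, Polynomial.coeff_zero]
    refine hint (at1 x S) n _ ((range (2 * n + 1)).filter fun y : ℕ => (at1 x T).eval (y : ℤ) ≠ 0)
      ((natDegree_at1 _ _).trans hSd) (nonroots _ n hTx0 ((natDegree_at1 _ _).trans hTd)) ?_
    intro y hy
    rw [mem_filter, mem_range] at hy
    refine ⟨by omega, ?_⟩
    have h1 : ev x y (S * T) = ev x y S * ev x y T := map_mul _ _ _
    have h2 := ev_le (S * T) n (2 * n) x y hST hdeg (by omega) (by omega) hM
    rw [h1, Int.natAbs_mul] at h2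
    have h3 : 1 ≤ (ev x y T).natAbs := by
      have : ev x y T ≠ 0 := by
        rw [ev_at1]
        exact hy.2
      have := Int.natAbs_ne_zero.2 this
      omega
    rw [← ev_at1]
    exact (Nat.le_mul_of_pos_right _ h3).trans h2
  have key2 : ∀ i, n1 (S.coeff i) ≤ (n + 1) * (2 * n + 1) ^ n *
      ((n + 1) * (2 * n + 1) ^ n * (nrm (S * T) * (2 * n) ^ n * (2 * n) ^ n)) := by
    intro i
    refine hint (S.coeff i) n _ _ (hSx i) hZ fun x hx => ⟨?_, ?_⟩
    · rw [mem_filter, mem_range] at hx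
      omega
    · rw [← coeff_at1]
      exact (coeff_le _ _).trans (key x hx)
  have h5 : nrm S = ∑ i ∈ range (n + 1), n1 (S.coeff i) := by
    refine nrm_eq S _ fun i hi => ?_
    rw [mem_range]
    have := Polynomial.le_natDegree_of_mem_supp i hi
    omega
  rw [h5]
  refine (sum_le_card_nsmul _ _ _ fun i _ => key2 i).trans ?_
  rw [card_range, smul_eq_mul]
  have h6 : (n + 1) * ((n + 1) * (2 * n + 1) ^ n *
      ((n + 1) * (2 * n + 1) ^ n * (nrm (S * T) * (2 * n) ^ n * (2 * n) ^ n))) =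
      ((n + 1) ^ 3 * ((2 * n + 1) ^ n) ^ 2 * ((2 * n) ^ n) ^ 2) * nrm (S * T) := by ring
  rw [h6]
  refine Nat.mul_le_mul_right _ ?_
  have h7 : (2 * n + 1) ^ (4 * n + 3) =
      (2 * n + 1) ^ 3 * ((2 * n + 1) ^ n) ^ 2 * ((2 * n + 1) ^ n) ^ 2 := by
    rw [← pow_mul, ← pow_add, ← pow_add]
    congr 1
    omega
  rw [h7]
  refine Nat.mul_le_mul (Nat.mul_le_mul_right _ (Nat.pow_le_pow_left (by omega) 3)) ?_
  exact Nat.pow_le_pow_left (Nat.pow_le_pow_left (by omega) n) 2

end Pool.Agent.Helper91.OV.GEL
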