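import Pool.Agent.Helper7.OV.Goals1

/-!
# Project OV, packet ACT: the series as a module over the polynomials
-/

set_option autoImplicit false

open Finset

namespace Pool.Agent.Helper91.OV.ACT

open Pool.Agent.Helper7.OV

/-- translation in the first variable -/
def T1 : Module.End ℚ Ser where
  toFun m := fun k l => m (k - 1) l
  map_add' _ _ := rfl
  map_smul' _ _ := rfl

/-- translation in the second variable -/
def T2 : Module.End ℚ Ser where
  toFun m := fun k l => m k (l - 1)
  map_add' _ _ := rfl
  map_smul' _ _ := rfl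

theorem T1_pow (i : ℕ) (m : Ser) (k l : ℤ) : (T1 ^ i) m k l = m (k - i) l := by
  induction i generalizing m k l with
  | zero => simp
  | succ n ih =>
    rw [pow_succ, Module.End.mul_apply, ih]
    change m (k - n - 1) l = _
    congr 1
    push_cast
    ring

theorem T2_pow (i : ℕ) (m : Ser) (k l : ℤ) : (T2 ^ i) m k l = m k (l - i) := by
  induction i generalizing m k l with
  | zero => simp
  | succ n ih =>
    rw [pow_succ, Module.End.mul_apply, ih]
    change m k (l - n - 1) = _
    congr 1
    push_cast
    ring

theorem comm12 : Commute T1 T2 := rfl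

/-- polynomials in the first variable act -/
noncomputable def ph1 : Polynomial ℤ →+* Module.End ℚ Ser :=
  (Polynomial.aeval (R := ℤ) T1).toRingHom

theorem ph1_apply (f : Polynomial ℤ) (m : Ser) (k l : ℤ) :
    ph1 f m k l = ∑ i ∈ range (f.natDegree + 1), (f.coeff i : ℚ) * m (k - i) l := by
  have h : ph1 f = ∑ i ∈ range (f.natDegree + 1), f.coeff i • T1 ^ i :=
    Polynomial.aeval_eq_sum_range T1
  rw [h, LinearMap.sum_apply, Finset.sum_apply, Finset.sum_apply]
  refine sum_congr rfl fun i _ => ?_
  rw [LinearMap.smul_apply, Pi.smul_apply, Pi.smul_apply, T1_pow, zsmul_eq_mul]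

theorem comm1 (f : Polynomial ℤ) : Commute (ph1 f) T2 := by
  have h : ph1 f = ∑ i ∈ range (f.natDegree + 1), f.coeff i • T1 ^ i :=
    Polynomial.aeval_eq_sum_range T1
  rw [h]
  exact Commute.sum_left _ _ _ fun i _ => (comm12.pow_left i).smul_left _

/-- the action -/
noncomputable def ph : P2 →+* Module.End ℚ Ser := Polynomial.eval₂RingHom' ph1 T2 comm1

theorem ph_apply (F : P2) (m : Ser) (k l : ℤ) : ph F m k l = act F m k l := by
  have h : ph F = ∑ j ∈ range (F.natDegree + 1), ph1 (F.coeff j) * T2 ^ j :=
    Polynomial.eval₂_eq_sum_range ph1 T2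
  rw [h, LinearMap.sum_apply, Finset.sum_apply, Finset.sum_apply]
  refine sum_congr rfl fun j _ => ?_
  rw [Module.End.mul_apply, ph1_apply]
  refine sum_congr rfl fun i _ => ?_
  rw [T2_pow]
  rfl

theorem act_eq (F : P2) (m : Ser) : act F m = ph F m := by
  funext k l
  exact (ph_apply F m k l).symm

/-- the unit series -/
def dl : Ser := fun k l => if k = 0 ∧ l = 0 then 1 else 0

theorem co_big (F : P2) : ∃ N : ℕ, ∀ i j, co F i j ≠ 0 → i < N ∧ j < N := by
  refine ⟨F.natDegree + 1 + ∑ j ∈ range (F.natDegree + 1), ((F.coeff j).natDegree + 1),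
    fun i j h => ?_⟩
  have hj : j < F.natDegree + 1 := by
    by_contra hc
    apply h
    unfold co
    rw [Polynomial.coeff_eq_zero_of_natDegree_lt (p := F) (by omega), Polynomial.coeff_zero]
  have hi : i < (F.coeff j).natDegree + 1 := by
    by_contra hc
    apply h
    unfold co
    rw [Polynomial.coeff_eq_zero_of_natDegree_lt (by omega)]
  have := single_le_sum (f := fun j => (F.coeff j).natDegree + 1) (fun _ _ => Nat.zero_le _)
    (mem_range.2 hj)
  omega

/-- the action as a sum over a large square -/
theorem act_big (F : P2) (N : ℕ) (hN : ∀ i j, co F i j ≠ 0 → i < N ∧ j < N) (m : Ser) (k l : ℤ) :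
    act F m k l = ∑ j ∈ range N, ∑ i ∈ range N, (co F i j : ℚ) * m (k - i) (l - j) := by
  have h1 : ∀ j, ∑ i ∈ range ((F.coeff j).natDegree + 1), (co F i j : ℚ) * m (k - i) (l - j) =
      ∑ i ∈ range N, (co F i j : ℚ) * m (k - i) (l - j) := by
    intro j
    have e1 : ∑ i ∈ range ((F.coeff j).natDegree + 1), (co F i j : ℚ) * m (k - i) (l - j) =
        ∑ i ∈ range ((F.coeff j).natDegree + 1 + N), (co F i j : ℚ) * m (k - i) (l - j) := by
      refine sum_subset (range_subset_range.2 (by omega)) fun i _ hi => ?_
      have : co F i j = 0 := by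
        unfold co
        rw [Polynomial.coeff_eq_zero_of_natDegree_lt]
        rw [mem_range] at hi
        omega
      rw [this, Int.cast_zero, zero_mul]
    have e2 : ∑ i ∈ range N, (co F i j : ℚ) * m (k - i) (l - j) =
        ∑ i ∈ range ((F.coeff j).natDegree + 1 + N), (co F i j : ℚ) * m (k - i) (l - j) := by
      refine sum_subset (range_subset_range.2 (by omega)) fun i _ hi => ?_
      have : co F i j = 0 := by
        by_contra hc
        exact hi (mem_range.2 (hN i j hc).1)
      rw [this, Int.cast_zero, zero_mul]
    rw [e1, e2]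
  unfold act
  rw [sum_congr rfl fun j _ => h1 j]
  have e1 : ∑ j ∈ range (F.natDegree + 1), ∑ i ∈ range N, (co F i j : ℚ) * m (k - i) (l - j) =
      ∑ j ∈ range (F.natDegree + 1 + N), ∑ i ∈ range N, (co F i j : ℚ) * m (k - i) (l - j) := by
    refine sum_subset (range_subset_range.2 (by omega)) fun j _ hj => sum_eq_zero fun i _ => ?_
    have : co F i j = 0 := by
      unfold co
      rw [Polynomial.coeff_eq_zero_of_natDegree_lt (p := F), Polynomial.coeff_zero]
      rw [mem_range] at hj
      omega
    rw [this, Int.cast_zero, zero_mul]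
  have e2 : ∑ j ∈ range N, ∑ i ∈ range N, (co F i j : ℚ) * m (k - i) (l - j) =
      ∑ j ∈ range (F.natDegree + 1 + N), ∑ i ∈ range N, (co F i j : ℚ) * m (k - i) (l - j) := by
    refine sum_subset (range_subset_range.2 (by omega)) fun j _ hj => sum_eq_zero fun i _ => ?_
    have : co F i j = 0 := by
      by_contra hc
      exact hj (mem_range.2 (hN i j hc).2)
    rw [this, Int.cast_zero, zero_mul]
  rw [e1, e2]

theorem cf_eq (F : P2) : cf F = act F dl := by
  obtain ⟨N, hN⟩ := co_big F
  funext k l
  rw [act_big F N hN]
  unfold cf dl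
  by_cases h : 0 ≤ k ∧ 0 ≤ l
  · rw [if_pos h]
    by_cases hz : co F k.toNat l.toNat = 0
    · rw [hz, Int.cast_zero]
      symm
      refine sum_eq_zero fun j _ => sum_eq_zero fun i _ => ?_
      split_ifs with h2
      · have h3 : i = k.toNat := by omega
        have h4 : j = l.toNat := by omega
        rw [h3, h4, hz, Int.cast_zero, zero_mul]
      · rw [mul_zero]
    · have h5 := hN _ _ hz
      rw [sum_eq_single l.toNat, sum_eq_single k.toNat]
      · rw [if_pos (by omega), mul_one]
      · intro i _ hi
        rw [if_neg (by omega), mul_zero]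
      · intro hc
        exact (hc (mem_range.2 h5.1)).elim
      · intro j _ hj
        refine sum_eq_zero fun i _ => ?_
        rw [if_neg (by omega), mul_zero]
      · intro hc
        exact (hc (mem_range.2 h5.2)).elim
  · rw [if_neg h]
    symm
    refine sum_eq_zero fun j _ => sum_eq_zero fun i _ => ?_
    rw [if_neg (by omega), mul_zero]

theorem co_D1 (F : P2) (i j : ℕ) : co (D1 F) i j = i * co F i j := by
  have h1 : (D1 F).coeff j = Polynomial.X * Polynomial.derivative (F.coeff j) := by
    unfold D1
    rw [Polynomial.finsetSum_coeff]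
    simp only [Polynomial.coeff_monomial]
    rw [sum_ite_eq' (range (F.natDegree + 1)) j]
    split_ifs with h
    · rfl
    · rw [mem_range] at h
      rw [Polynomial.coeff_eq_zero_of_natDegree_lt (by omega), Polynomial.derivative_zero, mul_zero]
  unfold co
  rw [h1]
  cases i with
  | zero => simp
  | succ n =>
    rw [Polynomial.coeff_X_mul, Polynomial.coeff_derivative]
    push_cast
    ring

theorem co_D2 (F : P2) (i j : ℕ) : co (D2 F) i j = j * co F i j := by
  unfold co D2
  cases j with
  | zero => simp
  | succ n =>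
    rw [Polynomial.coeff_X_mul, Polynomial.coeff_derivative]
    have : (F.coeff (n + 1) * ((n : Polynomial ℤ) + 1)) = ((n + 1 : ℤ)) • F.coeff (n + 1) := by
      rw [zsmul_eq_mul]
      push_cast
      ring
    rw [this, Polynomial.coeff_smul]
    simp

theorem t : S_ACT := by
  refine ⟨?_, ?_, ?_, ?_, ?_, ?_, ?_, ?_, ?_, ?_, ?_, ?_⟩
  · intro F G m
    rw [act_eq, map_add, act_eq F, act_eq G]
    rfl
  · intro F m m'
    have : (fun k l => m k l + m' k l) = m + m' := rfl
    rw [this, act_eq, map_add, act_eq, act_eq]
    rfl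
  · intro F c m
    have : (fun k l => c * m k l) = c • m := rfl
    rw [this, act_eq, map_smul, act_eq]
    rfl
  · intro F m
    rw [act_eq, map_neg, act_eq F]
    rfl
  · intro F G m
    rw [act_eq, map_mul, act_eq F, act_eq G]
    rfl
  · intro F G
    rw [cf_eq, cf_eq, act_eq G, act_eq F, act_eq (F * G), map_mul]
    rfl
  · intro m
    rw [act_eq, map_one]
    rfl
  · intro F G k l
    rw [cf_eq, cf_eq F, cf_eq G, act_eq, map_add, act_eq F, act_eq G]
    rfl
  · intro F m
    obtain ⟨N, hN⟩ := co_big F
    funext k l
    have hN' : ∀ i j, co (D1 F) i j ≠ 0 → i < N ∧ j < N := by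
      intro i j h
      refine hN i j fun hc => h ?_
      rw [co_D1, hc, mul_zero]
    unfold d1
    rw [act_big F N hN, act_big F N hN, act_big (D1 F) N hN', mul_sum, ← sum_add_distrib]
    refine sum_congr rfl fun j _ => ?_
    rw [mul_sum, ← sum_add_distrib]
    refine sum_congr rfl fun i _ => ?_
    rw [co_D1]
    push_cast
    ring
  · intro F m
    obtain ⟨N, hN⟩ := co_big F
    funext k l
    have hN' : ∀ i j, co (D2 F) i j ≠ 0 → i < N ∧ j < N := by
      intro i j h
      refine hN i j fun hc => h ?_
      rw [co_D2, hc, mul_zero]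
    unfold d2
    rw [act_big F N hN, act_big F N hN, act_big (D2 F) N hN', mul_sum, ← sum_add_distrib]
    refine sum_congr rfl fun j _ => ?_
    rw [mul_sum, ← sum_add_distrib]
    refine sum_congr rfl fun i _ => ?_
    rw [co_D2]
    push_cast
    ring
  · intro F
    constructor
    · funext k l
      unfold d1 cf
      split_ifs with h
      · rw [co_D1]
        push_cast
        rw [show ((k.toNat : ℕ) : ℚ) = (k : ℚ) from by exact_mod_cast Int.toNat_of_nonneg h.1]
      · rw [mul_zero]
    · funext k l
      unfold d2 cf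
      split_ifs with h
      · rw [co_D2]
        push_cast
        rw [show ((l.toNat : ℕ) : ℚ) = (l : ℚ) from by exact_mod_cast Int.toNat_of_nonneg h.2]
      · rw [mul_zero]
  · intro m k l
    constructor
    · rw [act_eq]
      have : ph XX = T1 := by
        unfold ph XX ph1
        simp
      rw [this]
      rfl
    · rw [act_eq]
      have : ph YY = T2 := by
        unfold ph YY ph1
        simp
      rw [this]
      rfl

end Pool.Agent.Helper91.OV.ACT
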